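import Mathlib

namespace Pool.Agent.Results.MP_9149b8_co.StrictMono

/-- The worst-case coherence of a sequence `F` of `N` vectors in `ℝ^M`: the largest value of
`|⟨F i, F j⟩|` over all pairs of distinct indices `i ≠ j` (a maximum over a finite set,
nonempty as soon as `N ≥ 2`). -/
noncomputable def coherence {N M : ℕ} (F : Fin N → EuclideanSpace ℝ (Fin M)) : ℝ :=
  ⨆ p : {p : Fin N × Fin N // p.1 ≠ p.2}, |inner ℝ (F p.1.1) (F p.1.2)|

/-- The set of all coherences of sequences of `N` unit vectors in `ℝ^M`. -/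
def coherences (N M : ℕ) : Set ℝ :=
  {c | ∃ F : Fin N → EuclideanSpace ℝ (Fin M), (∀ i, ‖F i‖ = 1) ∧ coherence F = c}

/-- The optimal coherence `μ(N, M)`: the smallest coherence of `N` unit vectors in `ℝ^M`
(the infimum is attained, see `optCoherence_isLeast`). -/
noncomputable def optCoherence (N M : ℕ) : ℝ := sInf (coherences N M)

/-- There is a pair of distinct indices as soon as `2 ≤ N`. -/
lemma nonempty_pairs {N : ℕ} (hN : 2 ≤ N) : Nonempty {p : Fin N × Fin N // p.1 ≠ p.2} :=
  ⟨⟨(⟨0, by omega⟩, ⟨1, by omega⟩), by simp⟩⟩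

lemma abs_inner_le_coherence {N M : ℕ} (F : Fin N → EuclideanSpace ℝ (Fin M)) {i j : Fin N}
    (hij : i ≠ j) : |inner ℝ (F i) (F j)| ≤ coherence F := by
  have hb : BddAbove (Set.range fun p : {p : Fin N × Fin N // p.1 ≠ p.2} =>
      |inner ℝ (F p.1.1) (F p.1.2)|) := Set.finite_range _ |>.bddAbove
  exact le_ciSup hb (⟨(i, j), hij⟩ : {p : Fin N × Fin N // p.1 ≠ p.2})

lemma coherence_lt {N M : ℕ} (hN : 2 ≤ N) (F : Fin N → EuclideanSpace ℝ (Fin M)) (c : ℝ)
    (h : ∀ i j, i ≠ j → |inner ℝ (F i) (F j)| < c) : coherence F < c := by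
  have := nonempty_pairs hN
  obtain ⟨p, hp⟩ := exists_eq_ciSup_of_finite
    (f := fun p : {p : Fin N × Fin N // p.1 ≠ p.2} => |inner ℝ (F p.1.1) (F p.1.2)|)
  unfold coherence
  rw [← hp]
  exact h _ _ p.2

lemma coherence_nonneg {N M : ℕ} (F : Fin N → EuclideanSpace ℝ (Fin M)) : 0 ≤ coherence F :=
  Real.iSup_nonneg fun _ => abs_nonneg _

lemma continuous_coherence {N M : ℕ} (hN : 2 ≤ N) :
    Continuous (fun F : Fin N → EuclideanSpace ℝ (Fin M) => coherence F) := by
  have := nonempty_pairs hN
  have h : (fun F : Fin N → EuclideanSpace ℝ (Fin M) => coherence F) = fun F =>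
      Finset.univ.sup' Finset.univ_nonempty
        (fun p : {p : Fin N × Fin N // p.1 ≠ p.2} => |inner ℝ (F p.1.1) (F p.1.2)|) := by
    funext F
    rw [Finset.sup'_univ_eq_ciSup]
    rfl
  rw [h]
  apply Continuous.finset_sup'_apply
  intro p _
  have h1 : Continuous fun F : Fin N → EuclideanSpace ℝ (Fin M) => F p.1.1 := continuous_apply _
  have h2 : Continuous fun F : Fin N → EuclideanSpace ℝ (Fin M) => F p.1.2 := continuous_apply _
  exact (h1.inner h2).abs

/-- The minimum defining `μ(N, M)` is attained. -/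
theorem optCoherence_isLeast {N M : ℕ} (hN : 2 ≤ N) (hM : 1 ≤ M) :
    IsLeast (coherences N M) (optCoherence N M) := by
  have hcomp : IsCompact (Set.pi Set.univ
      fun _ : Fin N => Metric.sphere (0 : EuclideanSpace ℝ (Fin M)) 1) :=
    isCompact_univ_pi fun _ => isCompact_sphere _ _
  have hne : (Set.pi Set.univ
      fun _ : Fin N => Metric.sphere (0 : EuclideanSpace ℝ (Fin M)) 1).Nonempty := by
    refine ⟨fun _ => EuclideanSpace.single ⟨0, by omega⟩ 1, ?_⟩
    simp
  obtain ⟨F, hF, hmin⟩ := hcomp.exists_isMinOn hne (continuous_coherence hN).continuousOn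
  have hleast : IsLeast (coherences N M) (coherence F) := by
    constructor
    · refine ⟨F, fun i => ?_, rfl⟩
      have := hF i (Set.mem_univ i)
      simpa using this
    · rintro c ⟨G, hG, rfl⟩
      apply hmin
      intro i _
      simp [hG i]
  unfold optCoherence
  rw [hleast.csInf_eq]
  exact hleast

lemma optCoherence_pos {N M : ℕ} (hN : 2 ≤ N) (hM : 1 ≤ M) (hMN : M < N) :
    0 < optCoherence N M := by
  obtain ⟨F, hF, hc⟩ := (optCoherence_isLeast hN hM).1
  rw [← hc]
  rcases (coherence_nonneg F).lt_or_eq with h | h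
  · exact h
  exfalso
  have horth : Orthonormal ℝ F := by
    refine ⟨hF, fun i j hij => ?_⟩
    have := abs_inner_le_coherence F hij
    rw [← h] at this
    exact abs_nonpos_iff.mp this
  have := horth.linearIndependent.fintype_card_le_finrank
  simp at this
  omega

/-- The lifted vector `(a, s v) ∈ ℝ^(M+1)`. -/
noncomputable def lift {M : ℕ} (a s : ℝ) (v : EuclideanSpace ℝ (Fin M)) :
    EuclideanSpace ℝ (Fin (M + 1)) :=
  WithLp.toLp 2 (Fin.cons a fun k => s * v k)

lemma inner_lift {M : ℕ} (a s b t : ℝ) (v w : EuclideanSpace ℝ (Fin M)) :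
    inner ℝ (lift a s v) (lift b t w) = a * b + s * t * inner ℝ v w := by
  simp only [lift, PiLp.inner_apply, Fin.sum_univ_succ, Fin.cons_zero, Fin.cons_succ]
  rw [Finset.mul_sum]
  simp only [RCLike.inner_apply, conj_trivial]
  congr 1
  · ring
  · apply Finset.sum_congr rfl
    intro k _
    ring

/-- **Strict monotonicity of the optimal coherence in the dimension.** -/
theorem result (N M : ℕ) (hN : 2 ≤ N) (hM : 1 ≤ M) (hMN : M ≤ N - 1) :
    optCoherence N (M + 1) < optCoherence N M := by
  have hMN' : M < N := by omega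
  set μ := optCoherence N M with hμ
  have hpos : 0 < μ := optCoherence_pos hN hM hMN'
  obtain ⟨F, hF, hc⟩ := (optCoherence_isLeast hN hM).1
  -- the tilts
  set t : ℝ := min (1 / 2) (μ / 4) with ht
  have ht0 : 0 < t := by positivity
  have ht1 : t ≤ 1 / 2 := min_le_left _ _
  have htμ : t ≤ μ / 4 := min_le_right _ _
  set a : Fin N → ℝ := fun i => t ^ ((i : ℕ) + 1) with ha
  have ha0 : ∀ i, 0 < a i := fun i => by positivity
  have ha1 : ∀ i, a i ≤ 1 := fun i => pow_le_one₀ ht0.le (by linarith)
  have haa : ∀ i j : Fin N, i < j → a j ≤ t * a i := by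
    intro i j hij
    have : (i : ℕ) + 1 + 1 ≤ (j : ℕ) + 1 := by
      have : (i : ℕ) < j := hij
      omega
    calc a j ≤ t ^ ((i : ℕ) + 1 + 1) := pow_le_pow_of_le_one ht0.le (by linarith) this
      _ = t * a i := by simp only [ha]; ring
  set s : Fin N → ℝ := fun i => Real.sqrt (1 - a i ^ 2) with hs
  have hsq : ∀ i, s i ^ 2 = 1 - a i ^ 2 := fun i => Real.sq_sqrt (by
    have := ha1 i
    have := ha0 i
    nlinarith)
  have hs0 : ∀ i, 0 ≤ s i := fun i => Real.sqrt_nonneg _
  have hs1 : ∀ i, s i ≤ 1 - a i ^ 2 / 2 := by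
    intro i
    apply Real.sqrt_le_iff.mpr
    have := ha1 i
    have := ha0 i
    constructor
    · nlinarith
    · nlinarith [sq_nonneg (a i ^ 2)]
  set G : Fin N → EuclideanSpace ℝ (Fin (M + 1)) := fun i => lift (a i) (s i) (F i) with hG
  have hGn : ∀ i, ‖G i‖ = 1 := by
    intro i
    have h1 : ‖G i‖ ^ 2 = 1 := by
      rw [← real_inner_self_eq_norm_sq, hG]
      simp only
      rw [inner_lift, real_inner_self_eq_norm_sq, hF i]
      have := hsq i
      nlinarith
    have h2 : 0 ≤ ‖G i‖ := norm_nonneg _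
    nlinarith
  have key : ∀ i j : Fin N, i < j → |inner ℝ (G i) (G j)| < μ := by
    intro i j hij
    have h1 : |inner ℝ (F i) (F j)| ≤ μ := by
      rw [hμ, ← hc]
      exact abs_inner_le_coherence F (ne_of_lt hij)
    rw [hG]
    simp only
    rw [inner_lift]
    have hai := ha0 i
    have haj := ha0 j
    have hsj1 : s j ≤ 1 := by
      have := hs1 j
      nlinarith
    have hss : s i * s j ≤ 1 - a i ^ 2 / 2 := by
      calc s i * s j ≤ s i * 1 := mul_le_mul_of_nonneg_left hsj1 (hs0 i)
        _ ≤ _ := by rw [mul_one]; exact hs1 i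
    calc |a i * a j + s i * s j * inner ℝ (F i) (F j)|
        ≤ |a i * a j| + |s i * s j * inner ℝ (F i) (F j)| := abs_add_le _ _
      _ = a i * a j + s i * s j * |inner ℝ (F i) (F j)| := by
          rw [abs_mul (s i * s j), abs_of_nonneg (mul_nonneg hai.le haj.le),
            abs_of_nonneg (mul_nonneg (hs0 i) (hs0 j))]
      _ ≤ a i * (t * a i) + (1 - a i ^ 2 / 2) * μ := by
          apply add_le_add
          · exact mul_le_mul_of_nonneg_left (haa i j hij) hai.le
          · exact mul_le_mul hss h1 (abs_nonneg _) (le_trans (mul_nonneg (hs0 i) (hs0 j)) hss)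
      _ < μ := by
          have : 0 < a i ^ 2 := by positivity
          nlinarith
  have hlt : coherence G < μ := by
    apply coherence_lt hN
    intro i j hij
    rcases lt_or_gt_of_ne hij with h | h
    · exact key i j h
    · rw [real_inner_comm]
      exact key j i h
  have hle : optCoherence N (M + 1) ≤ coherence G :=
    (optCoherence_isLeast hN (by omega)).2 ⟨G, hGn, rfl⟩
  exact lt_of_le_of_lt hle hlt

end Pool.Agent.Results.MP_9149b8_co.StrictMono
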